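import Mathlib

set_option autoImplicit false

open Filter

universe u v

namespace Pool.Agent.Results.MP_dd6e79_al.NoOscillation

/-- The elements of the semigroup `S` that are products of at most `n` elements of `X`, i.e. the
values of the nonempty words of length at most `n` over `X`. -/
def ball {S : Type u} [Semigroup S] (X : Set S) (n : ℕ) : Set S :=
  {s | ∃ w : FreeSemigroup X, w.length ≤ n ∧ FreeSemigroup.lift Subtype.val w = s}

/-- The growth function of the semigroup `S` with respect to the generating set `X`. -/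
noncomputable def growth {S : Type u} [Semigroup S] (X : Set S) (n : ℕ) : ℕ := (ball X n).ncard

/-- The semigroup `S` is finitely presented: it is isomorphic to the quotient of the free
semigroup on a finite set by the congruence generated by a finite set of pairs of words. -/
def IsFinitelyPresented (S : Type u) [Semigroup S] : Prop :=
  ∃ (k : ℕ) (R : Finset (FreeSemigroup (Fin k) × FreeSemigroup (Fin k))),
    Nonempty ((conGen fun u v => (u, v) ∈ R).Quotient ≃* S)

/-- `f ⪯ g`: there is a constant `C ≥ 1` with `f n ≤ C * g (C * n)` for all `n`. -/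
def Dominated (f g : ℕ → ℕ) : Prop := ∃ C : ℕ, 1 ≤ C ∧ ∀ n, f n ≤ C * g (C * n)

/-- `f ∼ g`: both `f ⪯ g` and `g ⪯ f`. -/
def Equivalent (f g : ℕ → ℕ) : Prop := Dominated f g ∧ Dominated g f

/-! ### Growth functions -/

section Growth

variable {S : Type u} [Semigroup S]

theorem ball_mono (X : Set S) : Monotone (ball X) := by
  rintro n m h s ⟨w, hw, rfl⟩
  exact ⟨w, hw.trans h, rfl⟩

theorem ball_finite (X : Set S) (hX : X.Finite) (n : ℕ) : (ball X n).Finite := by
  have : Finite X := hX
  have h : ({w : FreeSemigroup X | w.length ≤ n}).Finite := by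
    let φ : FreeSemigroup X → List X := fun w => w.head :: w.tail
    have hφ : Function.Injective φ := by
      rintro ⟨a, l⟩ ⟨b, m⟩ h
      simp only [φ, List.cons.injEq] at h
      rw [h.1, h.2]
    refine Set.Finite.of_finite_image (f := φ) ?_ hφ.injOn
    refine (List.finite_length_le X n).subset ?_
    rintro _ ⟨w, hw, rfl⟩
    exact hw
  refine (h.image (fun w => FreeSemigroup.lift Subtype.val w)).subset ?_
  rintro s ⟨w, hw, rfl⟩
  exact ⟨w, hw, rfl⟩

theorem growth_mono (X : Set S) (hX : X.Finite) : Monotone (growth X) := fun _ m h =>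
  Set.ncard_le_ncard (ball_mono X h) (ball_finite X hX m)

theorem ball_add (X : Set S) (n m : ℕ) :
    ball X (n + m) ⊆ (ball X n ∪ ball X m) ∪ Set.image2 (· * ·) (ball X n) (ball X m) := by
  rintro s ⟨⟨a, l⟩, hw, rfl⟩
  have hlen : l.length + 1 ≤ n + m := hw
  by_cases h : l.length + 1 ≤ n
  · exact Or.inl (Or.inl ⟨⟨a, l⟩, h, rfl⟩)
  · rcases Nat.eq_zero_or_pos n with h0 | h0
    · left
      right
      exact ⟨⟨a, l⟩, by simpa [h0] using hw, rfl⟩
    · right
      have hd : l.drop (n - 1) ≠ [] := by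
        intro h1
        rw [List.drop_eq_nil_iff] at h1
        omega
      obtain ⟨b, l', hbl⟩ := List.exists_cons_of_ne_nil hd
      have hl : l = l.take (n - 1) ++ b :: l' := by rw [← hbl, List.take_append_drop]
      have hlen2 : (l.drop (n - 1)).length = l'.length + 1 := by rw [hbl]; rfl
      rw [List.length_drop] at hlen2
      refine ⟨_, ⟨⟨a, l.take (n - 1)⟩, ?_, rfl⟩, _, ⟨⟨b, l'⟩, ?_, rfl⟩, ?_⟩
      · change (l.take (n - 1)).length + 1 ≤ n
        rw [List.length_take]
        omega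
      · change l'.length + 1 ≤ m
        omega
      · change FreeSemigroup.lift Subtype.val _ * FreeSemigroup.lift Subtype.val _ = _
        rw [← map_mul]
        congr 1
        change (⟨a, l.take (n - 1) ++ b :: l'⟩ : FreeSemigroup X) = ⟨a, l⟩
        rw [← hl]

theorem growth_add (X : Set S) (hX : X.Finite) (n m : ℕ) :
    growth X (n + m) + 1 ≤ (growth X n + 1) * (growth X m + 1) := by
  have h1 := ball_finite X hX n
  have h2 := ball_finite X hX m
  have h3 : (Set.image2 (· * ·) (ball X n) (ball X m)).ncard ≤ growth X n * growth X m := by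
    rw [← Set.image_prod]
    refine (Set.ncard_image_le (h1.prod h2)).trans ?_
    rw [Set.ncard_prod]
    exact le_rfl
  have h4 := Set.ncard_le_ncard (ball_add X n m) ((h1.union h2).union (h1.image2 _ h2))
  have h5 := Set.ncard_union_le (ball X n ∪ ball X m)
    (Set.image2 (· * ·) (ball X n) (ball X m))
  have h6 := Set.ncard_union_le (ball X n) (ball X m)
  unfold growth at *
  nlinarith

theorem dichotomy (X : Set S) (hX : X.Finite) :
    (∃ N, ∀ n, N ≤ n → n ^ 3 ≤ growth X n) ∨
      (∀ k : ℕ, ∀ᶠ n in atTop, growth X n ^ k ≤ 2 ^ n) := by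
  set v : ℕ → ℝ := fun n => Real.log ((growth X n : ℝ) + 1) with hv
  have hpos : ∀ n, (0 : ℝ) < (growth X n : ℝ) + 1 := fun n => by positivity
  have hv0 : ∀ n, 0 ≤ v n := by
    intro n
    apply Real.log_nonneg
    have : (0 : ℝ) ≤ growth X n := Nat.cast_nonneg _
    linarith
  have hsub : Subadditive v := by
    intro n m
    simp only [hv]
    rw [← Real.log_mul (hpos n).ne' (hpos m).ne']
    apply Real.log_le_log (hpos _)
    exact_mod_cast growth_add X hX n m
  have hbdd : BddBelow (Set.range fun n : ℕ => v n / n) := by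
    refine ⟨0, ?_⟩
    rintro _ ⟨n, rfl⟩
    exact div_nonneg (hv0 n) (Nat.cast_nonneg _)
  have hlim := hsub.tendsto_lim hbdd
  have hL0 : 0 ≤ hsub.lim :=
    ge_of_tendsto' hlim (fun n => div_nonneg (hv0 n) (Nat.cast_nonneg _))
  rcases hL0.eq_or_lt with hL | hL
  · right
    intro k
    rw [← hL] at hlim
    have h2 : (0 : ℝ) < Real.log 2 / (k + 1) := div_pos (Real.log_pos (by norm_num)) (by positivity)
    filter_upwards [hlim.eventually_lt_const h2, eventually_gt_atTop 0] with n hn hn0
    have hn0' : (0 : ℝ) < n := by exact_mod_cast hn0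
    rw [div_lt_div_iff₀ hn0' (by positivity)] at hn
    have h3 : (k : ℝ) * v n ≤ n * Real.log 2 := by
      have := hv0 n
      nlinarith
    have h4 : ((growth X n : ℝ) + 1) ^ k ≤ 2 ^ n := by
      rw [← Real.log_le_log_iff (pow_pos (hpos n) k) (by positivity), Real.log_pow, Real.log_pow]
      exact h3
    have h5 : (growth X n : ℝ) ^ k ≤ ((growth X n : ℝ) + 1) ^ k := by
      gcongr
      linarith
    exact_mod_cast h5.trans h4
  · left
    have h1 : ∀ n : ℕ, n ≠ 0 → Real.exp (hsub.lim * n) ≤ (growth X n : ℝ) + 1 := by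
      intro n hn
      have hn' : (0 : ℝ) < n := by exact_mod_cast Nat.pos_of_ne_zero hn
      have h2 := hsub.lim_le_div hbdd hn
      rw [le_div_iff₀ hn'] at h2
      exact (Real.le_log_iff_exp_le (hpos n)).mp h2
    have h2 : ∀ᶠ n : ℕ in atTop, ((n : ℝ) ^ 3 + 1) ≤ Real.exp (hsub.lim * n) := by
      have h3 : Tendsto (fun x : ℝ => Real.exp (hsub.lim * x) / x ^ (4 : ℝ)) atTop atTop :=
        tendsto_exp_mul_div_rpow_atTop 4 _ hL
      have h4 := (h3.comp tendsto_natCast_atTop_atTop).eventually_ge_atTop 1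
      filter_upwards [h4, eventually_ge_atTop 2] with n hn hn2
      have hn2' : (2 : ℝ) ≤ n := by exact_mod_cast hn2
      simp only [Function.comp_apply] at hn
      have h5 : ((n : ℝ) ^ (4 : ℝ)) = (n : ℝ) ^ 4 := by norm_cast
      rw [h5, le_div_iff₀ (by positivity), one_mul] at hn
      have h6 : (1 : ℝ) ≤ (n : ℝ) ^ 3 := one_le_pow₀ (by linarith)
      have h7 : (n : ℝ) ^ 4 = n ^ 3 * n := by ring
      nlinarith
    obtain ⟨N, hN⟩ := eventually_atTop.mp h2
    refine ⟨N + 1, fun n hn => ?_⟩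
    have h3 := hN n (by omega)
    have h4 := h1 n (by omega)
    have h5 : (n : ℝ) ^ 3 ≤ growth X n := by linarith
    exact_mod_cast h5

end Growth

/-! ### Countability -/

theorem ball_image {S : Type u} {T : Type v} [Semigroup S] [Semigroup T] (e : T ≃* S) (X : Set T)
    (n : ℕ) : ball (e '' X) n = e '' ball X n := by
  ext s
  constructor
  · rintro ⟨w, hw, rfl⟩
    let φ : (e '' X) → X := fun y => ⟨e.symm y, by
      obtain ⟨x, hx, hxy⟩ := y.2
      rw [← hxy, e.symm_apply_apply]; exact hx⟩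
    refine ⟨FreeSemigroup.lift Subtype.val (FreeSemigroup.map φ w),
      ⟨FreeSemigroup.map φ w, by rwa [FreeSemigroup.length_map], rfl⟩, ?_⟩
    have h : ((e : T →ₙ* S).comp (FreeSemigroup.lift (Subtype.val : X → T))).comp
        (FreeSemigroup.map φ) = FreeSemigroup.lift (Subtype.val : (e '' X) → S) := by
      apply FreeSemigroup.hom_ext
      funext y
      simp [φ]
    exact DFunLike.congr_fun h w
  · rintro ⟨_, ⟨w, hw, rfl⟩, rfl⟩
    let φ : X → (e '' X) := fun y => ⟨e y, y, y.2, rfl⟩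
    refine ⟨FreeSemigroup.map φ w, by rwa [FreeSemigroup.length_map], ?_⟩
    have h : (FreeSemigroup.lift (Subtype.val : (e '' X) → S)).comp (FreeSemigroup.map φ) =
        (e : T →ₙ* S).comp (FreeSemigroup.lift (Subtype.val : X → T)) := by
      apply FreeSemigroup.hom_ext
      funext y
      simp [φ]
    exact DFunLike.congr_fun h w

theorem growth_image {S : Type u} {T : Type v} [Semigroup S] [Semigroup T] (e : T ≃* S)
    (X : Set T) : growth (e '' X) = growth X := by
  funext n
  unfold growth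
  rw [ball_image, Set.ncard_image_of_injective _ e.injective]

/-- The growth functions of the finitely presented semigroups. -/
def growthFunctions : Set (ℕ → ℕ) :=
  {g | ∃ (S : Type u) (_ : Semigroup S), IsFinitelyPresented S ∧ ∃ X : Set S, X.Finite ∧
    g = growth X}

theorem countable_growthFunctions : (growthFunctions.{u}).Countable := by
  have hc : ∀ k : ℕ, Countable (FreeSemigroup (Fin k)) := by
    intro k
    have hφ : Function.Injective (fun w : FreeSemigroup (Fin k) => (w.head, w.tail)) := by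
      rintro ⟨a, l⟩ ⟨b, m⟩ h
      simp only [Prod.mk.injEq] at h
      rw [h.1, h.2]
    exact hφ.countable
  let I : Type := Σ p : (Σ k : ℕ, Finset (FreeSemigroup (Fin k) × FreeSemigroup (Fin k))),
    Finset ((conGen fun u v => (u, v) ∈ p.2).Quotient)
  have hq : ∀ p : (Σ k : ℕ, Finset (FreeSemigroup (Fin k) × FreeSemigroup (Fin k))),
      Countable ((conGen fun u v => (u, v) ∈ p.2).Quotient) := by
    intro p
    have := hc p.1
    exact Quotient.countable
  have hI : Countable I := by
    have h1 : Countable (Σ k : ℕ, Finset (FreeSemigroup (Fin k) × FreeSemigroup (Fin k))) := by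
      have := hc
      infer_instance
    have := hq
    infer_instance
  refine (Set.countable_range (fun i : I => growth (i.2 : Set (conGen fun u v => (u, v) ∈ i.1.2).Quotient))).mono ?_
  rintro g ⟨S, _, ⟨k, R, ⟨e⟩⟩, X, hX, rfl⟩
  have hY : (e ⁻¹' X).Finite := hX.preimage e.injective.injOn
  refine ⟨⟨⟨k, R⟩, hY.toFinset⟩, ?_⟩
  simp only [Set.Finite.coe_toFinset]
  rw [← growth_image e, Set.image_preimage_eq _ e.surjective]

/-! ### The diagonal argument -/

/-- subexponential functions -/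
def Sub (g : ℕ → ℕ) : Prop := ∀ k : ℕ, ∀ᶠ n in atTop, g n ^ k ≤ 2 ^ n

theorem Sub.of_le {g h : ℕ → ℕ} (hh : Sub h) (hgh : ∀ n, g n ≤ h n) : Sub g := fun k => by
  filter_upwards [hh k] with n hn
  exact (Nat.pow_le_pow_left (hgh n) k).trans hn

theorem Sub.add {g h : ℕ → ℕ} (hg : Sub g) (hh : Sub h) : Sub (fun n => g n + h n) := by
  intro k
  filter_upwards [hg (2 * k), hh (2 * k), eventually_ge_atTop (2 * k)] with n h1 h2 h3
  have h4 : ∀ m : ℕ, m ^ (2 * k) ≤ 2 ^ n → (2 * m) ^ k ≤ 2 ^ n := by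
    intro m hm
    have h5 : ((2 * m) ^ k) ^ 2 ≤ (2 ^ n) ^ 2 := by
      calc ((2 * m) ^ k) ^ 2 = 2 ^ (2 * k) * m ^ (2 * k) := by
            rw [← pow_mul, mul_comm k 2, mul_pow]
        _ ≤ 2 ^ n * 2 ^ n := Nat.mul_le_mul (Nat.pow_le_pow_right (by norm_num) h3) hm
        _ = (2 ^ n) ^ 2 := by ring
    exact (Nat.pow_le_pow_iff_left (by norm_num)).mp h5
  rcases le_total (g n) (h n) with h6 | h6
  · exact (Nat.pow_le_pow_left (by omega) k).trans (h4 _ h2)
  · exact (Nat.pow_le_pow_left (by omega) k).trans (h4 _ h1)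

theorem sub_linear : Sub (fun n => n + 1) := by
  intro k
  have h1 := tendsto_pow_const_div_const_pow_of_one_lt k (r := (2 : ℝ)) (by norm_num)
  have h2 : (0 : ℝ) < 1 / 2 ^ k := by positivity
  filter_upwards [h1.eventually_lt_const h2, eventually_ge_atTop 1] with n h3 h4
  rw [div_lt_div_iff₀ (by positivity) (by positivity), one_mul] at h3
  have h5 : (n + 1) ^ k ≤ (n * 2) ^ k := Nat.pow_le_pow_left (by omega) k
  rw [mul_pow] at h5
  have h6 : n ^ k * 2 ^ k < 2 ^ n := by exact_mod_cast h3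
  omega

theorem sub_zero' : Sub (fun _ => 0) := sub_linear.of_le (fun n => Nat.zero_le _)

/-- A diagonal function. -/
theorem diagonal (G : ℕ → ℕ → ℕ) (hmono : ∀ k, Monotone (G k)) (hk : ∀ k n, G k n ≤ G (k + 1) n)
    (hs : ∀ k, Sub (G k)) :
    ∃ F : ℕ → ℕ, Monotone F ∧ Sub F ∧ ∀ k, ∀ᶠ n in atTop, G k n ≤ F n := by
  have h1 : ∀ k, ∃ N, ∀ n, N ≤ n → G k n ^ k ≤ 2 ^ n := fun k => eventually_atTop.mp (hs k k)
  choose N hN using h1
  have hGk : ∀ n, Monotone (fun k => G k n) := fun n => monotone_nat_of_le_succ (fun k => hk k n)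
  let κ : ℕ → ℕ := fun n => Nat.findGreatest (fun k => N k ≤ n) n
  let κ' : ℕ → ℕ := fun n => Nat.findGreatest (fun k => ∀ j, j ≤ k → N j ≤ n) n
  have hκmono : Monotone κ' := by
    intro n m h
    apply Nat.findGreatest_mono _ h
    intro k hk j hj
    exact (hk j hj).trans h
  have hκ1 : ∀ n, κ' n ≠ 0 → N (κ' n) ≤ n := by
    intro n hn
    have := Nat.findGreatest_of_ne_zero (P := fun k => ∀ j, j ≤ k → N j ≤ n) (n := n) rfl hn
    exact this _ le_rfl
  have hκ2 : ∀ k, ∀ᶠ n in atTop, k ≤ κ' n := by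
    intro k
    have : ∃ M, ∀ j, j ≤ k → N j ≤ M := by
      refine ⟨∑ j ∈ Finset.range (k + 1), N j, fun j hj => ?_⟩
      exact Finset.single_le_sum (f := N) (fun _ _ => Nat.zero_le _)
        (Finset.mem_range.mpr (by omega))
    obtain ⟨M, hM⟩ := this
    filter_upwards [eventually_ge_atTop M, eventually_ge_atTop k] with n h1 h2
    apply Nat.le_findGreatest h2
    intro j hj
    exact (hM j hj).trans h1
  refine ⟨fun n => G (κ' n) n, ?_, ?_, ?_⟩
  · intro n m h
    exact (hmono _ h).trans (hGk m (hκmono h))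
  · intro k
    filter_upwards [hκ2 (k + 1)] with n hn
    rcases Nat.eq_zero_or_pos (G (κ' n) n) with h0 | h0
    · rw [h0]
      rcases Nat.eq_zero_or_pos k with hk0 | hk0
      · rw [hk0, pow_zero]; exact Nat.one_le_two_pow
      · rw [zero_pow hk0.ne']; exact Nat.zero_le _
    · exact (Nat.pow_le_pow_right h0 (by omega)).trans (hN _ n (hκ1 n (by omega)))
  · intro k
    filter_upwards [hκ2 k] with n hn
    exact hGk n hn

theorem exists_dominating (A : Set (ℕ → ℕ)) (hA : A.Countable) (hm : ∀ g ∈ A, Monotone g)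
    (hs : ∀ g ∈ A, Sub g) :
    ∃ F : ℕ → ℕ, StrictMono F ∧ Sub F ∧ ∀ g ∈ A, ∀ᶠ n in atTop, g n ≤ F n := by
  obtain ⟨g, hg⟩ := (hA.insert (fun _ => 0)).exists_eq_range (Set.insert_nonempty _ _)
  have hg1 : ∀ i, Monotone (g i) := by
    intro i
    have : g i ∈ insert (fun _ => 0) A := by rw [hg]; exact ⟨i, rfl⟩
    rcases this with h | h
    · rw [h]; exact monotone_const
    · exact hm _ h
  have hg2 : ∀ i, Sub (g i) := by
    intro i
    have : g i ∈ insert (fun _ => 0) A := by rw [hg]; exact ⟨i, rfl⟩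
    rcases this with h | h
    · rw [h]; exact sub_zero'
    · exact hs _ h
  obtain ⟨F, hF1, hF2, hF3⟩ := diagonal (fun k n => ∑ i ∈ Finset.range (k + 1), g i n)
    (fun k _ _ h => Finset.sum_le_sum (fun i _ => hg1 i h))
    (fun k n => by rw [Finset.sum_range_succ _ (k + 1)]; exact Nat.le_add_right _ _)
    (fun k => by
      induction k with
      | zero => simpa using hg2 0
      | succ k ih =>
        have := ih.add (hg2 (k + 1))
        refine this.of_le (fun n => ?_)
        rw [Finset.sum_range_succ _ (k + 1)])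
  refine ⟨fun n => F n + (n + 1), ?_, hF2.add sub_linear, ?_⟩
  · intro n m h
    have := hF1 h.le
    simp only
    omega
  · intro f hf
    obtain ⟨i, hi⟩ : f ∈ Set.range g := by rw [← hg]; exact Set.mem_insert_of_mem _ hf
    filter_upwards [hF3 i] with n hn
    have h1 : g i n ≤ ∑ j ∈ Finset.range (i + 1), g j n :=
      Finset.single_le_sum (f := fun j => g j n) (fun _ _ => Nat.zero_le _)
        (Finset.mem_range.mpr (Nat.lt_succ_self i))
    rw [← hi]
    omega

/-- There are strictly increasing functions `f₁`, `f₂` with `n ^ 2 ⪯ f₁`, `f₂ ⪯ 2 ^ n`,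
`f₁ ≁ n ^ 2` and `f₂ ≁ 2 ^ n`, such that for every finitely presented semigroup `S` (and every
finite generating set `X` of `S`) the growth function of `S` is at least `f₁` for all large `n`,
or at most `f₂` for all large `n`. -/
theorem result :
    ∃ f₁ f₂ : ℕ → ℕ, StrictMono f₁ ∧ StrictMono f₂ ∧
      Dominated (fun n => n ^ 2) f₁ ∧ Dominated f₂ (fun n => 2 ^ n) ∧
      ¬ Equivalent f₁ (fun n => n ^ 2) ∧ ¬ Equivalent f₂ (fun n => 2 ^ n) ∧
      ∀ (S : Type u) [Semigroup S], IsFinitelyPresented S →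
        ∀ X : Set S, X.Finite → Subsemigroup.closure X = ⊤ →
          (∃ N, ∀ n, N ≤ n → f₁ n ≤ growth X n) ∨ (∃ N, ∀ n, N ≤ n → growth X n ≤ f₂ n) := by
  obtain ⟨F, hF1, hF2, hF3⟩ := exists_dominating {g | g ∈ growthFunctions.{u} ∧ Sub g}
    (countable_growthFunctions.mono (fun _ h => h.1))
    (fun g hg => by
      obtain ⟨S, _, _, X, hX, rfl⟩ := hg.1
      exact growth_mono X hX)
    (fun g hg => hg.2)
  refine ⟨fun n => n ^ 3, F, ?_, hF1, ?_, ?_, ?_, ?_, ?_⟩
  · exact Nat.pow_left_strictMono (by norm_num)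
  · refine ⟨1, le_rfl, fun n => ?_⟩
    rw [one_mul, one_mul]
    rcases Nat.eq_zero_or_pos n with h | h
    · simp [h]
    · exact Nat.pow_le_pow_right h (by norm_num)
  · obtain ⟨N, hN⟩ := eventually_atTop.mp (hF2 1)
    refine ⟨F N + 1, by omega, fun n => ?_⟩
    rcases le_total n N with h | h
    · calc F n ≤ (F N + 1) * 1 := by have := hF1.monotone h; omega
        _ ≤ (F N + 1) * 2 ^ ((F N + 1) * n) := Nat.mul_le_mul_left _ Nat.one_le_two_pow
    · have h1 := hN n h
      rw [pow_one] at h1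
      calc F n ≤ 2 ^ n := h1
        _ ≤ 2 ^ ((F N + 1) * n) := Nat.pow_le_pow_right (by norm_num)
            (Nat.le_mul_of_pos_left _ (by omega))
        _ ≤ (F N + 1) * 2 ^ ((F N + 1) * n) := Nat.le_mul_of_pos_left _ (by omega)
  · rintro ⟨⟨C, hC, h⟩, -⟩
    have h1 := h (C ^ 3 + 1)
    have h2 : (C ^ 3 + 1) ^ 3 = (C ^ 3 + 1) * (C ^ 3 + 1) ^ 2 := by ring
    have h3 : C * (C * (C ^ 3 + 1)) ^ 2 = C ^ 3 * (C ^ 3 + 1) ^ 2 := by ring
    simp only at h1
    rw [h2, h3] at h1
    have h4 : C ^ 3 + 1 ≤ C ^ 3 := Nat.le_of_mul_le_mul_right h1 (by positivity)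
    omega
  · rintro ⟨-, ⟨C, hC, h⟩⟩
    obtain ⟨N, hN⟩ := eventually_atTop.mp (hF2 (2 * C))
    have key : ∀ n, N ≤ n → 2 ^ n ≤ C ^ 2 := by
      intro n hn
      have h1 := hN (C * n) (hn.trans (Nat.le_mul_of_pos_left _ (by omega)))
      have h2 : (F (n * C)) ^ 2 ≤ 2 ^ n := by
        rw [pow_mul, mul_comm C n, pow_mul] at h1
        exact (Nat.pow_le_pow_iff_left (by omega)).mp h1
      have h3 := h n
      simp only at h3
      have h4 : 2 ^ n * 2 ^ n ≤ C ^ 2 * 2 ^ n := by
        calc 2 ^ n * 2 ^ n ≤ (C * F (C * n)) * (C * F (C * n)) := Nat.mul_le_mul h3 h3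
          _ = C ^ 2 * (F (n * C)) ^ 2 := by rw [mul_comm n C]; ring
          _ ≤ C ^ 2 * 2 ^ n := Nat.mul_le_mul_left _ h2
      exact Nat.le_of_mul_le_mul_right h4 (by positivity)
    have h1 := key (N + C ^ 2) (by omega)
    have h2 : N + C ^ 2 < 2 ^ (N + C ^ 2) := Nat.lt_two_pow_self
    omega
  · intro S _ hS X hX _
    rcases dichotomy X hX with h | h
    · exact Or.inl h
    · right
      exact eventually_atTop.mp (hF3 _ ⟨⟨S, inferInstance, hS, X, hX, rfl⟩, h⟩)

end Pool.Agent.Results.MP_dd6e79_al.NoOscillation
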